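import Pool.Agent.H317.GH.Stm
import Pool.Graph.R_pool_sql_team_seeded_ab47071d.TH567.PR.Rep

/-!
# `SL_n(ℤ)` is in its genus
-/

set_option autoImplicit false

namespace Pool.Agent.H972.GH

open Matrix Pool.Agent.H317.GR Pool.Agent.H317.GH

/-- **GSZ.** `SL_n(ℤ)` is in its genus. -/
theorem gsz : S_GSZ := by
  intro n hn
  refine ⟨Pool.Agent.TH567.PR.fg_SL (by rw [Fintype.card_fin]; omega), ?_, fun Q _ _ => Iff.rfl⟩
  intro A hA
  have h1 : ∃ i j, A.1 i j ≠ (1 : Matrix (Fin n) (Fin n) ℤ) i j := by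
    by_contra hcon
    push Not at hcon
    exact hA (Subtype.ext (Matrix.ext hcon))
  obtain ⟨i, j, hij⟩ := h1
  obtain ⟨m, hm⟩ : ∃ m : ℕ, m = (A.1 i j - (1 : Matrix (Fin n) (Fin n) ℤ) i j).natAbs + 1 :=
    ⟨_, rfl⟩
  have : NeZero m := ⟨by omega⟩
  obtain ⟨f, hf⟩ : ∃ f : SZ n →* SpecialLinearGroup (Fin n) (ZMod m),
    f = SpecialLinearGroup.map (Int.castRingHom (ZMod m)) := ⟨_, rfl⟩
  have hfin : Finite (SpecialLinearGroup (Fin n) (ZMod m)) :=
    Finite.of_injective (fun B => B.1) Subtype.val_injective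
  refine ⟨f.ker, ?_, ?_⟩
  · have : Finite f.range := inferInstance
    have h2 := Subgroup.finiteIndex_ker f
    exact h2.index_ne_zero
  · intro hk
    have h2 : f A = 1 := hk
    have h3 : (f A).1 i j = (1 : Matrix (Fin n) (Fin n) (ZMod m)) i j := by
      rw [h2]
      rfl
    rw [hf] at h3
    have h4 : ((A.1 i j : ℤ) : ZMod m) = (((1 : Matrix (Fin n) (Fin n) ℤ) i j : ℤ) : ZMod m) := by
      have h5 : (((1 : Matrix (Fin n) (Fin n) ℤ) i j : ℤ) : ZMod m) =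
          (1 : Matrix (Fin n) (Fin n) (ZMod m)) i j := by
        rw [Matrix.one_apply, Matrix.one_apply]
        split_ifs <;> simp
      rw [h5, ← h3]
      rfl
    rw [← sub_eq_zero, ← Int.cast_sub, ZMod.intCast_zmod_eq_zero_iff_dvd] at h4
    have h5 : A.1 i j - (1 : Matrix (Fin n) (Fin n) ℤ) i j ≠ 0 := sub_ne_zero.2 hij
    have h6 := Int.le_of_dvd (abs_pos.2 h5) ((dvd_abs _ _).2 h4)
    rw [Int.abs_eq_natAbs] at h6
    omega

end Pool.Agent.H972.GH
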